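import Pool.Agent.Q270.MlsSalem

/-!
# For every Salem number the geometric-progression Lagrange spectrum is not closed
-/

set_option autoImplicit false

namespace Pool.Agent.Results.MP_8d213d_nt.SalemSpectrumNotClosed

open Polynomial Filter

/-- Salem numbers: real algebraic integers larger than one whose other Galois conjugates have
modulus at most one, one of them having modulus exactly one -/
def IsSalem (α : ℝ) : Prop :=
  1 < α ∧ IsIntegral ℤ α ∧ (∀ z : ℂ, aeval z (minpoly ℚ α) = 0 → z ≠ (α : ℂ) → ‖z‖ ≤ 1) ∧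
    ∃ z : ℂ, aeval z (minpoly ℚ α) = 0 ∧ ‖z‖ = 1

/-- the set of the values `limsup ‖ξ α ^ n‖`, where `‖·‖` is the distance to the nearest
integer and `ξ` runs over the real numbers -/
def lagrange (α : ℝ) : Set ℝ :=
  {v | ∃ ξ : ℝ, limsup (fun n : ℕ => |ξ * α ^ n - round (ξ * α ^ n)|) atTop = v}

/-- **Main theorem.** -/
theorem result (α : ℝ) (h : IsSalem α) :
    (∃ ε : ℝ, 0 < ε ∧ (lagrange α ∩ Set.Iio ε).Countable) ∧
    Set.Icc 0 (1 / 2) ⊆ closure (lagrange α) ∧ ¬ IsClosed (lagrange α) := by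
  obtain ⟨h1, h2, h3, w, hw0, hw1⟩ := h
  have hmin : minpoly ℚ α = (minpoly ℤ α).map (algebraMap ℤ ℚ) :=
    minpoly.isIntegrallyClosed_eq_field_fractions' ℚ h2
  have hval : ∀ z : ℂ, ((minpoly ℤ α).map (Int.castRingHom ℂ)).eval z = 0 ↔
      aeval z (minpoly ℚ α) = 0 := by
    intro z
    rw [hmin, aeval_map_algebraMap, eval_map, aeval_def]
    rfl
  have hP : (minpoly ℤ α).Monic := minpoly.monic h2
  have hirr : Irreducible (minpoly ℤ α) := minpoly.irreducible h2
  have hα0 : aeval (α : ℂ) (minpoly ℚ α) = 0 := by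
    have h4 : aeval (α : ℂ) (minpoly ℚ α) = ((aeval α (minpoly ℚ α) : ℝ) : ℂ) := by
      have := aeval_algebraMap_apply ℂ α (minpoly ℚ α)
      exact this
    rw [h4, minpoly.aeval, Complex.ofReal_zero]
  have hαn : 1 < ‖(α : ℂ)‖ := by
    rw [Complex.norm_real, Real.norm_eq_abs, abs_of_pos (by linarith)]
    exact h1
  have hexp : Pool.Agent.Q270.Mls.expRoots (minpoly ℤ α) = {(α : ℂ)} := by
    ext z
    rw [Pool.Agent.Q270.Mls.mem_expRoots hP.ne_zero, hval, Finset.mem_singleton]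
    constructor
    · rintro ⟨hz0, hz1⟩
      by_contra hne
      have := h3 z hz0 hne
      linarith
    · rintro rfl
      exact ⟨hα0, hαn⟩
  have hspec := Pool.Agent.Q270.Mls.spectrum_singleton hexp
  have hmain := Pool.Agent.Q270.Mls.main hP hirr ⟨_, (hval _).2 hα0, hαn⟩ ⟨w, (hval w).2 hw0, hw1⟩ 0
  rw [hspec] at hmain
  exact ⟨hmain.1, hmain.2.1, hmain.2.2.1⟩

end Pool.Agent.Results.MP_8d213d_nt.SalemSpectrumNotClosed
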